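import Pool.Agent.Helper57.NX.Defs3

/-!
# NX-31: fractional parts of `k ^ c` close to `1` are rare
-/

set_option autoImplicit false

open Finset
open scoped BigOperators ComplexConjugate

namespace Pool.Agent.Helper57.NX

noncomputable section

private theorem frac_e_add (s t : ℝ) : e (s + t) = e s * e t := by
  unfold e
  rw [← Complex.exp_add]
  congr 1
  push_cast
  ring

private theorem frac_e_conj (t : ℝ) : conj (e t) = e (-t) := by
  unfold e
  rw [← Complex.exp_conj]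
  congr 1
  simp only [map_mul, Complex.conj_ofReal, Complex.conj_I, map_ofNat, Complex.ofReal_neg]
  ring

private theorem frac_norm_e (t : ℝ) : ‖e t‖ = 1 := by
  unfold e
  have h : (2 * Real.pi * t * Complex.I : ℂ) = ((2 * Real.pi * t : ℝ) : ℂ) * Complex.I := by
    push_cast; ring
  rw [h, Complex.norm_exp_ofReal_mul_I]

private theorem frac_re_e (t : ℝ) : (e t).re = Real.cos (2 * Real.pi * t) := by
  unfold e
  have h : (2 * Real.pi * t * Complex.I : ℂ) = ((2 * Real.pi * t : ℝ) : ℂ) * Complex.I := by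
    push_cast; ring
  rw [h, Complex.exp_ofReal_mul_I_re]

private theorem frac_e_int (t : ℝ) (n : ℤ) : e (t + n) = e t := by
  rw [frac_e_add]
  have : e (n : ℝ) = 1 := by
    unfold e
    have h : (2 * Real.pi * ((n : ℝ) : ℂ) * Complex.I : ℂ) = n * (2 * Real.pi * Complex.I) := by
      push_cast; ring
    rw [h, Complex.exp_int_mul_two_pi_mul_I]
  rw [this, mul_one]

/-- lower bound for the exponential sum near an integer -/
private theorem frac_low (H : ℕ) (x η : ℝ) (hH : (H : ℝ) * η ≤ 1 / 8)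
    (hx : 1 - η ≤ Int.fract x) :
    (H : ℝ) ^ 2 / 4 ≤ ‖∑ h ∈ range H, e (h * x)‖ ^ 2 := by
  have h1 : (H : ℝ) / 2 ≤ ‖∑ h ∈ range H, e (h * x)‖ := by
    refine le_trans ?_ (Complex.re_le_norm _)
    rw [Complex.re_sum]
    have h2 : ∀ h ∈ range H, (1 / 2 : ℝ) ≤ (e (h * x)).re := by
      intro h hh
      have hhH : (h : ℝ) ≤ H := by exact_mod_cast (mem_range.mp hh).le
      have hy0 : 0 ≤ 1 - Int.fract x := by linarith [Int.fract_lt_one x]
      have hy1 : 1 - Int.fract x ≤ η := by linarith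
      have e1 : e (h * x) = e (-(h * (1 - Int.fract x))) := by
        rw [← frac_e_int (-(h * (1 - Int.fract x))) ((h : ℤ) * (⌊x⌋ + 1))]
        congr 1
        push_cast
        have := Int.floor_add_fract x
        have h3 : x = ⌊x⌋ + Int.fract x := this.symm
        nth_rewrite 1 [h3]
        ring
      rw [e1, frac_re_e]
      have h4 : 2 * Real.pi * (-(h * (1 - Int.fract x))) =
          -(2 * Real.pi * (h * (1 - Int.fract x))) := by ring
      rw [h4, Real.cos_neg]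
      have h5 : (h : ℝ) * (1 - Int.fract x) ≤ 1 / 8 := by
        calc (h : ℝ) * (1 - Int.fract x) ≤ H * η := by
              apply mul_le_mul hhH hy1 hy0 (Nat.cast_nonneg _)
          _ ≤ 1 / 8 := hH
      have h6 : 0 ≤ (h : ℝ) * (1 - Int.fract x) := mul_nonneg (Nat.cast_nonneg _) hy0
      have hpi := Real.pi_pos
      have h7 : Real.cos (Real.pi / 3) ≤ Real.cos (2 * Real.pi * (h * (1 - Int.fract x))) := by
        apply Real.cos_le_cos_of_nonneg_of_le_pi
        · positivity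
        · linarith
        · nlinarith
      rw [Real.cos_pi_div_three] at h7
      exact h7
    calc (H : ℝ) / 2 = ∑ _h ∈ range H, (1 / 2 : ℝ) := by simp; ring
      _ ≤ _ := sum_le_sum h2
  have h0 : 0 ≤ (H : ℝ) / 2 := by positivity
  calc (H : ℝ) ^ 2 / 4 = ((H : ℝ) / 2) ^ 2 := by ring
    _ ≤ _ := pow_le_pow_left₀ h0 h1 2

/-- expansion of the square -/
private theorem frac_sq (H : ℕ) (I : Finset ℕ) (x : ℕ → ℝ) (E : ℝ)
    (hE : ∀ j : ℤ, j ≠ 0 → |j| ≤ H → ‖∑ k ∈ I, e (j * x k)‖ ≤ E) (hE0 : 0 ≤ E) :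
    ∑ k ∈ I, ‖∑ h ∈ range H, e (h * x k)‖ ^ 2 ≤ H * I.card + H ^ 2 * E := by
  have h1 : ((∑ k ∈ I, ‖∑ h ∈ range H, e (h * x k)‖ ^ 2 : ℝ) : ℂ) =
      ∑ h ∈ range H, ∑ h' ∈ range H, ∑ k ∈ I, e (((h : ℤ) - (h' : ℤ) : ℤ) * x k) := by
    push_cast
    have h2 : ∀ k ∈ I, ((‖∑ h ∈ range H, e (h * x k)‖ : ℝ) : ℂ) ^ 2 =
        ∑ h ∈ range H, ∑ h' ∈ range H, e (((h : ℤ) - (h' : ℤ) : ℤ) * x k) := by
      intro k _
      rw [← Complex.mul_conj']
      rw [map_sum, sum_mul_sum]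
      refine sum_congr rfl fun h _ => sum_congr rfl fun h' _ => ?_
      rw [frac_e_conj, ← frac_e_add]
      congr 1
      push_cast
      ring
    rw [sum_congr rfl h2, sum_comm]
    refine sum_congr rfl fun h _ => ?_
    rw [sum_comm]
    refine sum_congr rfl fun h' _ => ?_
    refine sum_congr rfl fun k _ => ?_
    push_cast
    rfl
  have h3 : ∑ k ∈ I, ‖∑ h ∈ range H, e (h * x k)‖ ^ 2 =
      ‖((∑ k ∈ I, ‖∑ h ∈ range H, e (h * x k)‖ ^ 2 : ℝ) : ℂ)‖ := by
    rw [Complex.norm_real, Real.norm_of_nonneg]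
    exact sum_nonneg fun _ _ => by positivity
  rw [h3, h1]
  refine le_trans (norm_sum_le _ _) ?_
  have h4 : ∀ h ∈ range H, ‖∑ h' ∈ range H, ∑ k ∈ I, e (((h : ℤ) - (h' : ℤ) : ℤ) * x k)‖ ≤
      I.card + H * E := by
    intro h hh
    refine le_trans (norm_sum_le _ _) ?_
    have h5 : ∀ h' ∈ range H, ‖∑ k ∈ I, e (((h : ℤ) - (h' : ℤ) : ℤ) * x k)‖ ≤
        (if h' = h then (I.card : ℝ) else 0) + E := by
      intro h' hh'
      split_ifs with heq
      · subst heq
        refine le_trans (norm_sum_le _ _) ?_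
        simp only [frac_norm_e, sum_const, nsmul_eq_mul, mul_one]
        linarith
      · rw [zero_add]
        apply hE
        · intro h0
          apply heq
          omega
        · have := mem_range.mp hh
          have := mem_range.mp hh'
          rw [abs_le]
          constructor <;> omega
    refine le_trans (sum_le_sum h5) ?_
    rw [sum_add_distrib]
    simp only [sum_ite_eq', hh, if_true, sum_const, card_range, nsmul_eq_mul]
    exact le_refl _
  refine le_trans (sum_le_sum h4) ?_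
  simp only [sum_const, card_range, nsmul_eq_mul]
  apply le_of_eq
  ring

theorem frac_count (hES : ES0) (c : ℝ) (hc : 0 < c) (hcn : ∀ n : ℕ, c ≠ n) :
    ∃ C : ℝ, 0 < C ∧ ∃ σ : ℝ, 0 < σ ∧ ∃ D0 : ℝ, ∀ D : ℝ, D0 ≤ D → ∀ η : ℝ, 0 < η → η ≤ 1 →
    ∀ u T : ℕ, D ≤ u → (u : ℝ) + T ≤ 2 * D → D / 4 ≤ T →
    (#((Ico u (u + T)).filter fun k : ℕ => 1 - η ≤ Int.fract ((k : ℝ) ^ c)) : ℝ) ≤
      C * (η + D ^ (-σ)) * T := by
  obtain ⟨x0, hx0, σ, hσ, D0, hD0⟩ := hES 1 0 (fun _ => c) (fun _ _ _ => Subsingleton.elim _ _)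
    (fun _ n => hcn n) 2 (c + 1) c (by norm_num) hc
  refine ⟨256, by norm_num, min σ 1, lt_min hσ one_pos, max (max D0 1) ((4 : ℝ) ^ (1 / x0)), ?_⟩
  intro D hD η hη0 hη1 u T hDu huT hT
  have hD1 : 1 ≤ D := le_trans (le_trans (le_max_right _ _) (le_max_left _ _)) hD
  have hDD0 : D0 ≤ D := le_trans (le_trans (le_max_left _ _) (le_max_left _ _)) hD
  have hD4 : (4 : ℝ) ^ (1 / x0) ≤ D := le_trans (le_max_right _ _) hD
  have hDpos : 0 < D := by linarith
  have hTpos : (0 : ℝ) < T := by linarith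
  have hT0 : T ≠ 0 := by
    intro h; rw [h] at hTpos; simp at hTpos
  have hDx : 4 ≤ D ^ x0 := by
    have h := Real.rpow_le_rpow (by positivity) hD4 hx0.le
    rwa [← Real.rpow_mul (by norm_num), one_div, inv_mul_cancel₀ hx0.ne', Real.rpow_one] at h
  have hTx : D ^ (1 - x0) ≤ T := by
    refine le_trans ?_ hT
    rw [Real.rpow_sub hDpos, Real.rpow_one]
    exact div_le_div_of_nonneg_left hDpos.le (by norm_num) hDx
  set σ' := min σ 1 with hσ'
  have hDσ : D ^ (-σ) ≤ D ^ (-σ') :=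
    Real.rpow_le_rpow_of_exponent_le hD1 (by simp [hσ'])
  have hD1σ : D⁻¹ ≤ D ^ (-σ') := by
    rw [← Real.rpow_neg_one]
    exact Real.rpow_le_rpow_of_exponent_le hD1 (by simp [hσ'])
  have hDσpos : 0 < D ^ (-σ') := Real.rpow_pos_of_pos hDpos _
  -- the enlarged `η`
  set η' := max η D⁻¹ with hη'
  have hη'0 : 0 < η' := lt_of_lt_of_le hη0 (le_max_left _ _)
  have hη'b : η' ≤ η + D ^ (-σ') := by
    apply max_le
    · linarith
    · linarith
  have hcard : (#((Ico u (u + T)).filter fun k : ℕ => 1 - η ≤ Int.fract ((k : ℝ) ^ c)) : ℝ) ≤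
      (#((Ico u (u + T)).filter fun k : ℕ => 1 - η' ≤ Int.fract ((k : ℝ) ^ c)) : ℝ) := by
    exact_mod_cast card_le_card (by
      intro k hk
      rw [mem_filter] at hk ⊢
      exact ⟨hk.1, by linarith [le_max_left η D⁻¹, hk.2]⟩)
  refine le_trans hcard ?_
  by_cases hbig : 1 / 8 < η'
  · calc (#((Ico u (u + T)).filter fun k : ℕ => 1 - η' ≤ Int.fract ((k : ℝ) ^ c)) : ℝ)
        ≤ ((Ico u (u + T)).card : ℝ) := by exact_mod_cast card_filter_le _ _
      _ = T := by simp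
      _ ≤ 256 * (η + D ^ (-σ')) * T := by
        have : 1 ≤ 256 * (η + D ^ (-σ')) := by linarith
        nlinarith
  push Not at hbig
  set H := ⌊1 / (8 * η')⌋₊ with hH
  have h8 : 1 ≤ 1 / (8 * η') := by
    rw [le_div_iff₀ (by positivity)]; linarith
  have hH1 : 1 ≤ H := by
    rw [hH]
    exact Nat.le_floor (by simpa using h8)
  have hHle : (H : ℝ) ≤ 1 / (8 * η') := Nat.floor_le (by positivity)
  have hHη : (H : ℝ) * η' ≤ 1 / 8 := by
    calc (H : ℝ) * η' ≤ 1 / (8 * η') * η' := by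
          apply mul_le_mul_of_nonneg_right hHle hη'0.le
      _ = 1 / 8 := by field_simp
  have hHlow : 1 / (16 * η') ≤ H := by
    have h9 : 1 / (8 * η') < H + 1 := Nat.lt_floor_add_one _
    have h10 : (1 : ℝ) ≤ H := by exact_mod_cast hH1
    have h11 : 1 / (16 * η') = (1 / (8 * η')) / 2 := by field_simp; norm_num
    rw [h11]
    linarith
  have hHD : (H : ℝ) ≤ D := by
    refine le_trans hHle ?_
    rw [div_le_iff₀ (by positivity)]
    have : 1 ≤ D * η' := by
      calc 1 = D * D⁻¹ := by field_simp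
        _ ≤ D * η' := mul_le_mul_of_nonneg_left (le_max_right _ _) hDpos.le
    nlinarith
  -- the exponential sums
  have hexp : ∀ j : ℤ, j ≠ 0 → |j| ≤ H →
      ‖∑ k ∈ Ico u (u + T), e (j * ((k : ℝ) ^ c))‖ ≤ T * D ^ (-σ) := by
    intro j hj hjH
    have hj1 : (1 : ℝ) ≤ |(j : ℝ)| := by
      have : (1 : ℤ) ≤ |j| := Int.one_le_abs hj
      exact_mod_cast this
    have hj2 : |(j : ℝ)| ≤ D := by
      have : (|(j : ℝ)|) ≤ (H : ℝ) := by exact_mod_cast hjH
      linarith
    have hv := hD0 D hDD0 0 le_rfl zero_le_one (fun _ => (j : ℝ) * D ^ c)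
      (fun _ => by
        rw [abs_mul, abs_of_pos (Real.rpow_pos_of_pos hDpos c), Real.rpow_add hDpos,
          Real.rpow_one, mul_comm (D ^ c)]
        exact mul_le_mul_of_nonneg_right hj2 (Real.rpow_nonneg hDpos.le _))
      ⟨0, by
        rw [abs_mul, abs_of_pos (Real.rpow_pos_of_pos hDpos c)]
        have := Real.rpow_pos_of_pos hDpos c
        nlinarith⟩
      0 (by simp) u T hDu (by linarith) hTx
    have hEq : (𝔼 k ∈ Ico u (u + T), e (∑ i : Fin 1, (fun _ => (j : ℝ) * D ^ c) i *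
        (((k : ℝ) + 0) / D) ^ ((fun _ => c : Fin 1 → ℝ) i) + (0 : Polynomial ℝ).eval (k : ℝ))) =
        (T : ℂ)⁻¹ * ∑ k ∈ Ico u (u + T), e (j * ((k : ℝ) ^ c)) := by
      rw [Finset.expect_eq_sum_div_card, div_eq_inv_mul]
      congr 1
      · simp
      · refine sum_congr rfl fun k _ => ?_
        congr 1
        simp only [univ_unique, Fin.default_eq_zero, Fin.isValue, add_zero, sum_const,
          card_singleton, one_smul, Polynomial.eval_zero]
        rw [Real.div_rpow (Nat.cast_nonneg _) hDpos.le]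
        have := Real.rpow_pos_of_pos hDpos c
        field_simp
    rw [hEq, norm_mul, norm_inv, Complex.norm_natCast] at hv
    rw [inv_mul_le_iff₀ hTpos] at hv
    exact hv
  have hsq := frac_sq H (Ico u (u + T)) (fun k => (k : ℝ) ^ c) (T * D ^ (-σ)) hexp
    (by positivity)
  have hlow : (#((Ico u (u + T)).filter fun k : ℕ => 1 - η' ≤ Int.fract ((k : ℝ) ^ c)) : ℝ) *
      ((H : ℝ) ^ 2 / 4) ≤ ∑ k ∈ Ico u (u + T), ‖∑ h ∈ range H, e (h * (k : ℝ) ^ c)‖ ^ 2 := by
    calc (#((Ico u (u + T)).filter fun k : ℕ => 1 - η' ≤ Int.fract ((k : ℝ) ^ c)) : ℝ) *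
        ((H : ℝ) ^ 2 / 4) =
        ∑ k ∈ (Ico u (u + T)).filter fun k : ℕ => 1 - η' ≤ Int.fract ((k : ℝ) ^ c),
          ((H : ℝ) ^ 2 / 4) := by rw [sum_const, nsmul_eq_mul]
      _ ≤ ∑ k ∈ (Ico u (u + T)).filter fun k : ℕ => 1 - η' ≤ Int.fract ((k : ℝ) ^ c),
          ‖∑ h ∈ range H, e (h * (k : ℝ) ^ c)‖ ^ 2 := by
        refine sum_le_sum fun k hk => ?_
        exact frac_low H _ η' hHη (mem_filter.mp hk).2
      _ ≤ _ := sum_le_sum_of_subset_of_nonneg (filter_subset _ _) fun _ _ _ => by positivity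
  have hH0 : (0 : ℝ) < H := by exact_mod_cast hH1
  have hfin := le_trans hlow hsq
  have hcI : ((Ico u (u + T)).card : ℝ) = T := by simp
  rw [hcI] at hfin
  have hfin2 : (#((Ico u (u + T)).filter fun k : ℕ => 1 - η' ≤ Int.fract ((k : ℝ) ^ c)) : ℝ) ≤
      4 * T / H + 4 * (T * D ^ (-σ)) := by
    have h12 : (4 * T / H + 4 * (T * D ^ (-σ))) * ((H : ℝ) ^ 2 / 4) =
        H * T + H ^ 2 * (T * D ^ (-σ)) := by
      field_simp
    rw [← h12] at hfin
    exact le_of_mul_le_mul_right hfin (by positivity)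
  refine le_trans hfin2 ?_
  have hinv : 1 / (H : ℝ) ≤ 16 * η' := by
    rw [div_le_iff₀ hH0]
    have h13 : 1 / (16 * η') * (16 * η') = 1 := by field_simp
    nlinarith [mul_le_mul_of_nonneg_right hHlow (by positivity : 0 ≤ 16 * η')]
  calc 4 * (T : ℝ) / H + 4 * (T * D ^ (-σ)) = (4 * (1 / H) + 4 * D ^ (-σ)) * T := by ring
    _ ≤ (256 * (η + D ^ (-σ'))) * T := by
      apply mul_le_mul_of_nonneg_right _ hTpos.le
      linarith
    _ = _ := by ring

end

end Pool.Agent.Helper57.NX
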